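import Pool.Agent.H99.CE.Targets

/-! CCT: members of the class of concave functions. -/

set_option autoImplicit false

open MeasureTheory ProbabilityTheory Filter Topology
open scoped ENNReal
open Pool.Agent.H95 Pool.Agent.H95.Cop Pool.Agent.H96.Cop Pool.Agent.H99.CE

namespace Pool.Agent.H53.CE

theorem rpow_real_ineq {m y θ : ℝ} (hm : 0 < m) (hy : 0 ≤ y) (h0 : 0 < θ) (h1 : θ < 1) :
    y ^ θ ≤ m ^ θ * (1 - θ) + θ * m ^ (θ - 1) * y := by
  have h2 := Real.geom_mean_le_arith_mean2_weighted (by linarith : 0 ≤ 1 - θ) h0.le hm.le hy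
    (by ring)
  have h3 : 0 < m ^ (θ - 1) := Real.rpow_pos_of_pos hm _
  have h4 := mul_le_mul_of_nonneg_left h2 h3.le
  have e1 : m ^ (θ - 1) * (m ^ (1 - θ) * y ^ θ) = y ^ θ := by
    rw [← mul_assoc, ← Real.rpow_add hm]
    have : θ - 1 + (1 - θ) = 0 := by ring
    rw [this, Real.rpow_zero, one_mul]
  have e2 : m ^ (θ - 1) * m = m ^ θ := by
    nth_rewrite 2 [← Real.rpow_one m]
    rw [← Real.rpow_add hm]
    congr 1
    ring
  rw [e1] at h4
  calc y ^ θ ≤ m ^ (θ - 1) * ((1 - θ) * m + θ * y) := h4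
    _ = (m ^ (θ - 1) * m) * (1 - θ) + θ * m ^ (θ - 1) * y := by ring
    _ = m ^ θ * (1 - θ) + θ * m ^ (θ - 1) * y := by rw [e2]

/-- the power as an infimum of affine functions -/
theorem rpow_eq_iInf {θ : ℝ} (h0 : 0 < θ) (h1 : θ < 1) (x : ℝ≥0∞) :
    x ^ θ = ⨅ m : {m : ℝ // 0 < m}, (ENNReal.ofReal (m.1 ^ θ * (1 - θ)) +
      ENNReal.ofReal (θ * m.1 ^ (θ - 1)) * x) := by
  have hpos : ∀ m : {m : ℝ // 0 < m}, 0 < θ * m.1 ^ (θ - 1) := fun m =>
    mul_pos h0 (Real.rpow_pos_of_pos m.2 _)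
  have hpos' : ∀ m : {m : ℝ // 0 < m}, 0 ≤ m.1 ^ θ * (1 - θ) := fun m =>
    mul_nonneg (Real.rpow_nonneg m.2.le _) (by linarith)
  by_cases hx : x = ∞
  · subst hx
    rw [ENNReal.top_rpow_of_pos h0]
    refine (iInf_eq_top.2 fun m => ?_).symm
    rw [ENNReal.mul_top (ENNReal.ofReal_pos.2 (hpos m)).ne', add_top]
  · obtain ⟨y, hy0, rfl⟩ : ∃ y : ℝ, 0 ≤ y ∧ x = ENNReal.ofReal y :=
      ⟨x.toReal, ENNReal.toReal_nonneg, (ENNReal.ofReal_toReal hx).symm⟩
    have hterm : ∀ m : {m : ℝ // 0 < m}, ENNReal.ofReal (m.1 ^ θ * (1 - θ)) +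
        ENNReal.ofReal (θ * m.1 ^ (θ - 1)) * ENNReal.ofReal y =
        ENNReal.ofReal (m.1 ^ θ * (1 - θ) + θ * m.1 ^ (θ - 1) * y) := by
      intro m
      rw [← ENNReal.ofReal_mul (hpos m).le, ← ENNReal.ofReal_add (hpos' m)
        (mul_nonneg (hpos m).le hy0)]
    simp_rw [hterm]
    rw [ENNReal.ofReal_rpow_of_nonneg hy0 h0.le]
    apply le_antisymm
    · refine le_iInf fun m => ?_
      exact ENNReal.ofReal_le_ofReal (rpow_real_ineq m.2 hy0 h0 h1)
    · rcases hy0.eq_or_lt with h | h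
      · subst h
        rw [Real.zero_rpow h0.ne', ENNReal.ofReal_zero]
        have hlim : Tendsto (fun m : ℝ => ENNReal.ofReal (m ^ θ * (1 - θ) +
            θ * m ^ (θ - 1) * 0)) (𝓝[>] 0) (𝓝 0) := by
          have h2 : Tendsto (fun m : ℝ => m ^ θ * (1 - θ)) (𝓝[>] 0) (𝓝 0) := by
            have h3 : Tendsto (fun m : ℝ => m ^ θ) (𝓝 0) (𝓝 ((0 : ℝ) ^ θ)) :=
              (Real.continuousAt_rpow_const 0 θ (Or.inr h0.le)).tendsto
            rw [Real.zero_rpow h0.ne'] at h3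
            have h4 : Tendsto (fun m : ℝ => m ^ θ * (1 - θ)) (𝓝[>] 0) (𝓝 (0 * (1 - θ))) :=
              (h3.mul_const (1 - θ)).mono_left nhdsWithin_le_nhds
            rwa [zero_mul] at h4
          have h5 := ENNReal.tendsto_ofReal h2
          rw [ENNReal.ofReal_zero] at h5
          refine h5.congr fun m => ?_
          rw [mul_zero, add_zero]
        refine ge_of_tendsto hlim ?_
        filter_upwards [self_mem_nhdsWithin] with m hm
        exact iInf_le (fun m : {m : ℝ // 0 < m} => ENNReal.ofReal (m.1 ^ θ * (1 - θ) +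
            θ * m.1 ^ (θ - 1) * 0)) ⟨m, hm⟩
      · refine (iInf_le _ (⟨y, h⟩ : {m : ℝ // 0 < m})).trans ?_
        refine ENNReal.ofReal_le_ofReal ?_
        have e2 : y ^ (θ - 1) * y = y ^ θ := by
          nth_rewrite 2 [← Real.rpow_one y]
          rw [← Real.rpow_add h]
          congr 1
          ring
        have e3 : θ * y ^ (θ - 1) * y = θ * (y ^ (θ - 1) * y) := by ring
        dsimp only
        rw [e3, e2]
        linarith

theorem pf_CCT : T_CCT := by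
  refine ⟨?_, ?_, ?_⟩
  · intro θ h0 h1
    refine ⟨ENNReal.zero_rpow_of_pos h0, {m : ℝ // 0 < m}, _, _, ⟨⟨1, one_pos⟩⟩, ?_,
      rpow_eq_iInf h0 h1⟩
    intro m
    exact ⟨ENNReal.ofReal_ne_top, ENNReal.ofReal_ne_top⟩
  · intro t θ ht h0 h1
    refine ⟨⟨?_, Option {m : ℝ // 0 < m},
      fun o => o.elim 0 fun m => ENNReal.ofReal (m.1 ^ θ * (1 - θ)),
      fun o => o.elim (ENNReal.ofReal (t ^ (θ - 1))) fun m => ENNReal.ofReal (θ * m.1 ^ (θ - 1)),
      ⟨none⟩, ?_, ?_⟩, ⟨?_, {m : ℝ // t ≤ m}, _, _, ⟨⟨t, le_rfl⟩⟩, ?_, fun x => rfl⟩⟩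
    · unfold Hf
      simp
    · rintro (_ | m)
      · exact ⟨ENNReal.zero_ne_top, ENNReal.ofReal_ne_top⟩
      · exact ⟨ENNReal.ofReal_ne_top, ENNReal.ofReal_ne_top⟩
    · intro x
      rw [iInf_option]
      simp only [Option.elim_none, Option.elim_some, zero_add]
      rw [← rpow_eq_iInf h0 h1 x]
      rfl
    · unfold Gf
      refine le_antisymm ?_ bot_le
      refine (iInf_le _ (⟨t, le_rfl⟩ : {m : ℝ // t ≤ m})).trans ?_
      simp [div_self ht.ne']
    · intro m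
      exact ⟨ENNReal.ofReal_ne_top, ENNReal.ofReal_ne_top⟩
  · intro φ ψ hφ hψ a b ha hb
    obtain ⟨hφ0, ι, α, β, hι, hf, hφe⟩ := hφ
    obtain ⟨hψ0, ι', α', β', hι', hf', hψe⟩ := hψ
    refine ⟨by simp [hφ0, hψ0], ι × ι', fun p => a * α p.1 + b * α' p.2,
      fun p => a * β p.1 + b * β' p.2, inferInstance, ?_, ?_⟩
    · intro p
      exact ⟨ENNReal.add_ne_top.2 ⟨ENNReal.mul_ne_top ha (hf p.1).1,
        ENNReal.mul_ne_top hb (hf' p.2).1⟩, ENNReal.add_ne_top.2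
        ⟨ENNReal.mul_ne_top ha (hf p.1).2, ENNReal.mul_ne_top hb (hf' p.2).2⟩⟩
    · intro x
      dsimp only
      rw [hφe, hψe, mul_comm a, mul_comm b, ENNReal.iInf_mul fun h => absurd h ha,
        ENNReal.iInf_mul fun h => absurd h hb,
        ENNReal.iInf_add, iInf_prod]
      refine iInf_congr fun i => ?_
      rw [ENNReal.add_iInf]
      refine iInf_congr fun j => ?_
      ring

end Pool.Agent.H53.CE
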