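import Pool.Agent.H99.CE.Targets

/-! LNK: the links. -/

set_option autoImplicit false

open MeasureTheory ProbabilityTheory Filter Topology
open scoped ENNReal
open Pool.Agent.H95 Pool.Agent.H95.Cop Pool.Agent.H96.Cop Pool.Agent.H99.CE

namespace Pool.Agent.H53.CE

theorem pf_LNK : T_LNK := by
  intro K α c δ n0 B M hα hc hδ hReg hB hn0 D m hD hBm hmM hDm _
  have hDM : D ≤ M := by
    by_contra h
    push Not at h
    have h1 : M * B ≤ (D - 1) * B := Nat.mul_le_mul_right B (by omega)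
    omega
  have hBR : (0 : ℝ) < B := by exact_mod_cast hB
  have hr : 1 ≤ max (D - 1) 1 := le_max_right _ _
  have hrR : (0 : ℝ) < ((max (D - 1) 1 : ℕ) : ℝ) := by exact_mod_cast hr
  have hmr : B * max (D - 1) 1 ≤ m := by
    rcases le_total (D - 1) 1 with h | h
    · rw [max_eq_right h]
      omega
    · rw [max_eq_left h, Nat.mul_comm]
      exact hDm.le
  have hmR : (B : ℝ) * ((max (D - 1) 1 : ℕ) : ℝ) ≤ m := by exact_mod_cast hmr
  have hpow : (m : ℝ) ^ (-(1 + α)) ≤ (B : ℝ) ^ (-(1 + α)) * wq α D := by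
    unfold wq
    rw [← Real.mul_rpow hBR.le hrR.le]
    exact Real.rpow_le_rpow_of_nonpos (by positivity) hmR (by linarith)
  have hkk := (hReg m (by omega)).2
  have hBp : 0 < (B : ℝ) ^ (1 + α) := Real.rpow_pos_of_pos hBR _
  have hmain : kk K m / 2 ≤ wq α D / ((1 + δ) * tb α c δ B) := by
    have e1 : wq α D / ((1 + δ) * tb α c δ B) =
        (1 + δ) * c / 2 * ((B : ℝ) ^ (-(1 + α)) * wq α D) := by
      unfold tb cq
      rw [Real.rpow_neg hBR.le]
      field_simp
    rw [e1]
    have h2 := mul_le_mul_of_nonneg_left hpow (by positivity : 0 ≤ (1 + δ) * c / 2)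
    linarith
  unfold ld
  rw [if_pos hDM]
  refine le_trans (le_of_eq ?_) (ENNReal.ofReal_le_ofReal hmain)
  have h0 : 0 ≤ kk K m := kk_nonneg K m
  rw [ENNReal.ofReal_div_of_pos two_pos, ENNReal.ofReal_ofNat, ENNReal.div_eq_inv_mul, mul_comm]
  congr 1

end Pool.Agent.H53.CE
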